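import Pool.Agent.Lib_MP_ca431a_cb.Defs
import Pool.Agent.Lib_MP_ca431a_dis.Euclid
import Pool.Agent.Lib_MP_ca431a_dis.Sphere

/-!
# Rognes' connectivity conjecture fails for a Euclidean domain

`QuadraticAlgebra ℤ (-3) 1` is the ring `ℤ[ω]` with `ω² = ω - 3`, that is the ring of integers
`ℤ[(1 + √-11)/2]` of `ℚ(√-11)`, which is Euclidean for the norm.  We exhibit an explicit embedded
2-sphere (7 vertices, 15 edges, 10 triangles, all vertices being lines of `R^3`) in the common basis
complex `CB_3(R)` and a 2-cocycle of `CB_3(R)` with values in `R/2R` whose value on it is `1`.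

The definitions used in the statement (`CBTuples`, `boundary`, `ReducedHomologyVanishes`) are in
`Pool/Agent/Lib_MP_ca431a_cb/Defs.lean`.
-/

namespace Pool.Agent.Results.MP_ca431a_al.EuclideanCounterexample

open Pool.Agent.Rognes

/-- **Rognes' connectivity conjecture is false for Euclidean domains.**  The ring
`R = ℤ[(1 + √-11)/2]` (with its usual ring structure) is a Euclidean domain and
`H̃_2(CB_3(R)) ≠ 0`, although `2 ≠ 2 * 3 - 3`; so it is not true that for all Euclidean domains `R`,
all `d ≥ 1` and all `i ≠ 2d - 3` the group `H̃_i(CB_d(R))` vanishes. -/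
theorem result :
    (∃ E : EuclideanDomain (QuadraticAlgebra ℤ (-3) 1),
      E.toCommRing = QuadraticAlgebra.instCommRing) ∧
    ¬ ReducedHomologyVanishes (CBTuples (QuadraticAlgebra ℤ (-3) 1) 3) 2 ∧
    ¬ (∀ (R : Type) [EuclideanDomain R] (d : ℕ), 1 ≤ d → ∀ i : ℤ, i ≠ 2 * (d : ℤ) - 3 →
        ReducedHomologyVanishes (CBTuples R d) i) := by
  refine ⟨⟨RognesDis.euclid, rfl⟩, RognesDis.main, fun h => RognesDis.main ?_⟩
  exact @h (QuadraticAlgebra ℤ (-3) 1) RognesDis.euclid 3 (by norm_num) 2 (by norm_num)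

end Pool.Agent.Results.MP_ca431a_al.EuclideanCounterexample
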