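import Pool.Agent.Lib_MP_ca431a_cb.Defs
import Pool.Agent.Lib_MP_ca431a_cb.Final
import Pool.Agent.Lib_MP_ca431a_cb.Units

/-!
# Rognes' connectivity conjecture for principal ideal domains with many units

The definitions used in the statement (`CBTuples`, `boundary`, `ReducedHomologyVanishes`,
`ManyUnits`) are in `Pool/Agent/Lib_MP_ca431a_cb/Defs.lean`.
-/

namespace Pool.Agent.Results.MP_ca431a_al.ManyUnits

open Pool.Agent.Rognes

/-- **Vanishing of the reduced homology of the common basis complex outside degree `2d - 3`.**
For every principal ideal domain `R` with many units, every `d ≥ 1` and every `i ≠ 2d - 3`,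
`H̃_i(CB_d(R)) = 0`; and every principal ideal domain with finitely many maximal ideals, all with
infinite residue field (for example a discrete valuation ring with infinite residue field), has many
units. -/
theorem result :
    (∀ (R : Type*) [CommRing R] [IsDomain R] [IsPrincipalIdealRing R], ManyUnits R →
      ∀ d : ℕ, 1 ≤ d → ∀ i : ℤ, i ≠ 2 * (d : ℤ) - 3 → ReducedHomologyVanishes (CBTuples R d) i) ∧
    (∀ (R : Type*) [CommRing R] [IsDomain R] [IsPrincipalIdealRing R] [Finite (MaximalSpectrum R)],
      (∀ m : MaximalSpectrum R, Infinite (R ⧸ m.asIdeal)) → ManyUnits R) :=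
  ⟨fun _ _ _ _ hR d hd i hi => final hR d hd i hi,
    fun _ _ _ _ _ hinf => manyUnits_of_semilocal hinf⟩

end Pool.Agent.Results.MP_ca431a_al.ManyUnits
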